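import Pool.Agent.X29.SM.Uni

/-! Record gaps along every smooth curve, uniformly. -/

set_option autoImplicit false

namespace Pool.Agent.X29.SM

open Finset Filter
open Pool.Agent.TH668.Sm (HyS)
open Pool.Agent.W147.PS (ff ff_compare ev_pow)

/-- the exponents of the range of index `i` -/
noncomputable def bb1 (k : ℕ) (ε : ℝ) (i : ℕ) : ℝ := min (((i : ℝ) + 1) / 8) (k + 1 - ε) + ε / 2
/-- the exponents of the range of index `i` -/
noncomputable def bb2 (ε : ℝ) (i : ℕ) : ℝ := max (((i : ℝ) - 1) / 8) ε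

/-- the statement for the range of index `i` -/
def PP (k : ℕ) (ε : ℝ) (i : ℕ) (κ M : ℝ) : Prop :=
  0 ≤ ff M → ∀ (A s s' : ℝ) (φ : ℕ → ℝ → ℝ), (s = 1 ∨ s = -1) → (s' = 1 ∨ s' = -1) →
      HyS k A (A + M) (M ^ (-bb1 k ε i)) (M ^ (-bb2 ε i)) s s' φ →
      (∀ t ∈ Set.Icc A (A + M), M ^ (ε / 2) ≤ φ 0 t) →
      ∃ n : ℕ, (n : ℝ) ≤ M ∧ ∀ q : ℕ, q.Prime → κ * ff M < |(q : ℝ) - φ 0 (A + n)|

lemma sgn_sq {s : ℝ} (hs : s = 1 ∨ s = -1) : s * s = 1 := by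
  rcases hs with rfl | rfl <;> norm_num

lemma sgn_mul {s t : ℝ} (hs : s = 1 ∨ s = -1) (ht : t = 1 ∨ t = -1) : s * t = 1 ∨ s * t = -1 := by
  rcases hs with rfl | rfl <;> rcases ht with rfl | rfl <;> norm_num

set_option maxHeartbeats 4000000 in
/-- the theorem for small `ε` -/
theorem universal_small (k : ℕ) (ε : ℝ) (hε : 0 < ε) (hε1 : ε ≤ 1 / 2) :
    ∃ κ : ℝ, 0 < κ ∧ ∃ M₀ : ℝ, ∀ M : ℝ, M₀ ≤ M → ∀ (A s s' : ℝ) (φ : ℕ → ℝ → ℝ),
      (s = 1 ∨ s = -1) → (s' = 1 ∨ s' = -1) →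
      HyS k A (A + M) (M ^ (ε - (k + 1))) (M ^ (-ε)) s s' φ →
      ∃ n : ℕ, (n : ℝ) ≤ M ∧ ∀ q : ℕ, q.Prime → κ * ff M < |(q : ℝ) - φ 0 (A + n)| := by
  have hk0 : (0 : ℝ) ≤ k := Nat.cast_nonneg k
  obtain ⟨κ, hκ, M₁, hP⟩ := fin_unif (PP k ε) (by
    intro i κ κ' M hκ' hκκ h hff A s s' φ hs hs' hy hpos
    obtain ⟨n, hn, hq⟩ := h hff A s s' φ hs hs' hy hpos
    exact ⟨n, hn, fun q hq' => (mul_le_mul_of_nonneg_right hκκ hff).trans_lt (hq q hq')⟩)
    (8 * (k + 1)) (by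
    intro i _
    obtain ⟨κ, hκ, M₀, h⟩ := wide_two k (bb1 k ε i) (bb2 ε i) (ε / 2)
      (lt_of_lt_of_le hε (le_max_right _ _)) (by
        have := min_le_right (((i : ℝ) + 1) / 8) (k + 1 - ε)
        unfold bb1
        linarith) (by
        have h1 := min_le_left (((i : ℝ) + 1) / 8) (k + 1 - ε)
        have h2 := le_max_left (((i : ℝ) - 1) / 8) ε
        unfold bb1 bb2
        linarith) (by linarith)
    exact ⟨κ, hκ, M₀, fun M hM _ => h M hM⟩)
  obtain ⟨D₁, hD₁⟩ : ∃ D₁ : ℝ, D₁ = 3 ^ (k + 1) := ⟨_, rfl⟩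
  obtain ⟨J, hJ⟩ : ∃ J : ℕ, J = 8 * (k + 1) := ⟨_, rfl⟩
  have hJ1 : 1 ≤ J := by omega
  have hJr : (J : ℝ) = 8 * (k + 1) := by rw [hJ]; push_cast; ring
  obtain ⟨D, hD⟩ : ∃ D : ℝ, D = 2 * J * D₁ := ⟨_, rfl⟩
  have hD₁1 : 1 ≤ D₁ := by rw [hD₁]; exact one_le_pow₀ (by norm_num)
  have hJ1r : (1 : ℝ) ≤ J := by exact_mod_cast hJ1
  have hD1 : 1 ≤ D := by rw [hD]; nlinarith
  have hD0 : 0 < D := by linarith
  refine ⟨κ / 64, by positivity, ?_⟩
  apply eventually_atTop.mp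
  filter_upwards [ff_compare (1 / 2) (by norm_num) (by norm_num), eventually_ge_atTop (4 : ℝ),
    eventually_ge_atTop (M₁ * D), eventually_ge_atTop (4 * D), eventually_ge_atTop (D ^ 2),
    ev_pow 0 (ε / 2) (D ^ (k + 1)) (by linarith),
    ev_pow 0 (ε / 2) ((2 * D₁) ^ (k + 1)) (by linarith)] with M hff hM4 hMM₁ hMD hMD2 hp1 hp2
  intro A s s' φ hs hs' hy
  rw [Real.rpow_zero, mul_one] at hp1 hp2
  have hM0 : 0 < M := lt_of_lt_of_le (by norm_num) hM4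
  have hM1 : 1 ≤ M := le_trans (by norm_num) hM4
  have hlogM : 0 < Real.log M := Real.log_pos (lt_of_lt_of_le (by norm_num) hM4)
  obtain ⟨l, hl⟩ : ∃ l : ℝ, l = M / D₁ / J := ⟨_, rfl⟩
  obtain ⟨M', hM'⟩ : ∃ M' : ℝ, M' = M / D := ⟨_, rfl⟩
  have hM'l : M' = l / 2 := by
    rw [hM', hl, hD]
    have h1 : (J : ℝ) ≠ 0 := by linarith
    have h2 : D₁ ≠ 0 := by linarith
    field_simp
  have hM'4 : 4 ≤ M' := by
    rw [hM', le_div_iff₀ hD0]
    exact hMD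
  have hM'M₁ : M₁ ≤ M' := by
    rw [hM', le_div_iff₀ hD0]
    exact hMM₁
  have hM'0 : 0 < M' := by linarith
  have hM'M : M' ≤ M := by rw [hM']; exact div_le_self hM0.le hD1
  have hl0 : 0 < l := by linarith
  have hJl : (J : ℝ) * l = M / D₁ := by
    rw [hl]
    have h1 : (J : ℝ) ≠ 0 := by linarith
    field_simp
  -- the growth
  obtain ⟨a, s₀, hs₀, ha1, ha2, ha3⟩ := large (k + 1) A M (M ^ (ε - (k + 1))) s φ hs hM0 (by positivity)
    (fun j hj t ht => hy.der j (by omega) t ht) hy.lo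
  rw [← hD₁, ← hJl] at ha2 ha3
  have hsub1 : ∀ t ∈ Set.Icc a (a + J * l), t ∈ Set.Icc A (A + M) := fun t ht =>
    ⟨ha1.trans ht.1, ht.2.trans ha2⟩
  have hbig : ∀ t ∈ Set.Icc a (a + J * l), M ^ (ε / 2) ≤ s₀ * φ 0 t := by
    intro t ht
    refine le_trans ?_ (ha3 t ht)
    have h1 : M ^ (ε - (k + 1)) * (M / (2 * D₁)) ^ (k + 1) = M ^ ε / (2 * D₁) ^ (k + 1) := by
      rw [div_pow, ← Real.rpow_natCast M (k + 1), mul_div_assoc', ← Real.rpow_add hM0]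
      congr 2
      push_cast
      ring
    rw [h1, le_div_iff₀ (by positivity)]
    calc M ^ (ε / 2) * (2 * D₁) ^ (k + 1) ≤ M ^ (ε / 2) * M ^ (ε / 2) := by gcongr
      _ = M ^ ε := by rw [← Real.rpow_add hM0]; congr 1; ring
  -- the slow part
  have hR : (M ^ (1 / 8 : ℝ)) ^ J = M ^ ((k : ℝ) + 1) := by
    rw [← Real.rpow_natCast, ← Real.rpow_mul hM0.le]
    congr 1
    rw [hJr]
    ring
  obtain ⟨b, v, hb1, hb2, hv1, hv2, hv3⟩ := slow (ψ := fun t => s * φ (k + 1) t)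
    (ψ' := fun t => s * φ (k + 2) t) (a := a) (l := l) (μ := s' * s) (R := M ^ (1 / 8 : ℝ))
    (lo := M ^ (ε - (k + 1))) (hi := M ^ (-ε)) J hJ1 hl0 (by positivity) (sgn_mul hs' hs)
    (fun t ht => (hy.der (k + 1) le_rfl t (hsub1 t ht)).const_mul s)
    (fun t ht => by
      have h1 := hy.mono t (hsub1 t ht)
      have h2 : s' * s * (s * φ (k + 2) t) = s * s * (s' * φ (k + 2) t) := by ring
      rw [h2, sgn_sq hs, one_mul]
      exact h1)
    (fun t ht => hy.lo t (hsub1 t ht)) (fun t ht => hy.hi t (hsub1 t ht)) (by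
      rw [hR, ← Real.rpow_add hM0]
      apply Real.rpow_le_rpow_of_exponent_le hM1
      linarith)
  have hv0 : 0 < v := lt_of_lt_of_le (by positivity) hv1
  obtain ⟨x, hx⟩ : ∃ x : ℝ, x = -(Real.log v / Real.log M) := ⟨_, rfl⟩
  have hvx : v = M ^ (-x) := by
    rw [hx, neg_neg, Real.rpow_def_of_pos hM0, mul_div_cancel₀ _ hlogM.ne', Real.exp_log hv0]
  have hMgt : 1 < M := lt_of_lt_of_le (by norm_num) hM4
  have hx1 : ε ≤ x := by
    rw [hvx] at hv2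
    have := (Real.rpow_le_rpow_left_iff hMgt).1 hv2
    linarith
  have hx2 : x ≤ k + 1 - ε := by
    rw [hvx] at hv1
    have := (Real.rpow_le_rpow_left_iff hMgt).1 hv1
    linarith
  obtain ⟨i, hi⟩ : ∃ i : ℕ, i = ⌊8 * x⌋₊ := ⟨_, rfl⟩
  have hi1 : (i : ℝ) ≤ 8 * x := by rw [hi]; exact Nat.floor_le (by linarith)
  have hi2 : 8 * x < i + 1 := by rw [hi]; exact Nat.lt_floor_add_one _
  have hiN : i < 8 * (k + 1) := by
    have : (i : ℝ) < 8 * (k + 1) := by linarith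
    exact_mod_cast this
  -- the starting point
  obtain ⟨m, hm⟩ : ∃ m : ℕ, m = ⌈b - A⌉₊ := ⟨_, rfl⟩
  have hbA : 0 ≤ b - A := by linarith
  have hm1 : b - A ≤ m := by rw [hm]; exact Nat.le_ceil _
  have hm2 : (m : ℝ) < b - A + 1 := by rw [hm]; exact Nat.ceil_lt_add_one hbA
  have hsub2 : ∀ t ∈ Set.Icc (A + m) (A + m + M'), t ∈ Set.Icc b (b + l) := by
    intro t ht
    constructor
    · linarith [ht.1]
    · linarith [ht.2]
  have hsub3 : ∀ t ∈ Set.Icc b (b + l), t ∈ Set.Icc a (a + J * l) := fun t ht =>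
    ⟨hb1.trans ht.1, ht.2.trans hb2⟩
  have hffM : 0 ≤ ff M := hlogM.le.trans hff.1
  have hffM' : 1 / 2 / 32 * ff M ≤ ff M' := by
    refine (hff.2 M' ?_ ?_).1
    · have h1 : D ≤ M ^ (1 / 2 : ℝ) := by
        rw [← Real.sqrt_eq_rpow]
        exact Real.le_sqrt_of_sq_le hMD2
      rw [hM', le_div_iff₀ hD0]
      calc M ^ (1 / 2 : ℝ) * D ≤ M ^ (1 / 2 : ℝ) * M ^ (1 / 2 : ℝ) := by gcongr
        _ = M := by rw [← Real.rpow_add hM0]; norm_num
    · nlinarith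
  have hffM'0 : 0 ≤ ff M' := le_trans (by positivity) hffM'
  have hbb1 : x + ε / 2 ≤ bb1 k ε i := by
    unfold bb1
    have : x ≤ min (((i : ℝ) + 1) / 8) (k + 1 - ε) := le_min (by linarith) hx2
    linarith
  have hbb1' : bb1 k ε i ≤ k + 1 := by
    unfold bb1
    have := min_le_right (((i : ℝ) + 1) / 8) (k + 1 - ε)
    linarith
  have hbb10 : 0 ≤ bb1 k ε i := by linarith
  have hbb20 : 0 ≤ bb2 ε i := hε.le.trans (le_max_right _ _)
  have hy2 : HyS k (A + m) (A + m + M') (M' ^ (-bb1 k ε i)) (M' ^ (-bb2 ε i)) (s * s₀) (s' * s₀)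
      (fun j t => s₀ * φ j t) := by
    refine ⟨?_, ?_, ?_, ?_⟩
    · intro j hj t ht
      exact (hy.der j hj t (hsub1 t (hsub3 t (hsub2 t ht)))).const_mul s₀
    · intro t ht
      have h1 := (hv3 t (hsub2 t ht)).1
      have h2 : s * s₀ * (s₀ * φ (k + 1) t) = s₀ * s₀ * (s * φ (k + 1) t) := by ring
      rw [h2, sgn_sq hs₀, one_mul]
      refine le_trans ?_ h1
      rw [hvx]
      have h3 : M' ^ (-bb1 k ε i) = D ^ (bb1 k ε i) * M ^ (-bb1 k ε i) := by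
        rw [hM', Real.div_rpow hM0.le hD0.le, Real.rpow_neg hD0.le, div_inv_eq_mul, mul_comm]
      rw [h3]
      calc D ^ (bb1 k ε i) * M ^ (-bb1 k ε i) ≤ D ^ ((k : ℝ) + 1) * M ^ (-bb1 k ε i) := by
            gcongr
        _ ≤ M ^ (ε / 2) * M ^ (-bb1 k ε i) := by
            gcongr
            have : D ^ ((k : ℝ) + 1) = D ^ (k + 1) := by
              rw [← Real.rpow_natCast]
              push_cast
              rfl
            rw [this]
            exact hp1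
        _ = M ^ (ε / 2 + -bb1 k ε i) := by rw [← Real.rpow_add hM0]
        _ ≤ M ^ (-x) := Real.rpow_le_rpow_of_exponent_le hM1 (by linarith)
    · intro t ht
      have h1 := (hv3 t (hsub2 t ht)).2
      have h2 : s * s₀ * (s₀ * φ (k + 1) t) = s₀ * s₀ * (s * φ (k + 1) t) := by ring
      rw [h2, sgn_sq hs₀, one_mul]
      have h3 := hy.hi t (hsub1 t (hsub3 t (hsub2 t ht)))
      have h4 : M ^ (-bb2 ε i) ≤ M' ^ (-bb2 ε i) :=
        Real.rpow_le_rpow_of_nonpos hM'0 hM'M (by linarith)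
      refine le_trans ?_ h4
      unfold bb2
      rcases le_total (((i : ℝ) - 1) / 8) ε with h5 | h5
      · rw [max_eq_right h5]
        exact h3
      · rw [max_eq_left h5]
        refine h1.trans ?_
        rw [hvx, ← Real.rpow_add hM0]
        apply Real.rpow_le_rpow_of_exponent_le hM1
        linarith
    · intro t ht
      have h1 := hy.mono t (hsub1 t (hsub3 t (hsub2 t ht)))
      have h2 : s' * s₀ * (s₀ * φ (k + 2) t) = s₀ * s₀ * (s' * φ (k + 2) t) := by ring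
      rw [h2, sgn_sq hs₀, one_mul]
      exact h1
  obtain ⟨n, hn, hnq⟩ := hP M' hM'M₁ i hiN hffM'0 (A + m) (s * s₀) (s' * s₀) (fun j t => s₀ * φ j t)
    (sgn_mul hs hs₀) (sgn_mul hs' hs₀) hy2 (by
      intro t ht
      refine le_trans ?_ (hbig t (hsub3 t (hsub2 t ht)))
      exact Real.rpow_le_rpow hM'0.le hM'M (by linarith))
  refine ⟨m + n, ?_, ?_⟩
  · have h1 : A + m + n ∈ Set.Icc (A + m) (A + m + M') :=
      ⟨by have := Nat.cast_nonneg (α := ℝ) n; linarith, by linarith⟩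
    have h2 := (hsub1 _ (hsub3 _ (hsub2 _ h1))).2
    push_cast
    linarith
  · intro q hq
    have h1 : A + m + n ∈ Set.Icc (A + m) (A + m + M') :=
      ⟨by have := Nat.cast_nonneg (α := ℝ) n; linarith, by linarith⟩
    have h2 := hbig _ (hsub3 _ (hsub2 _ h1))
    have h3 := hnq q hq
    have h4 : κ / 64 * ff M ≤ κ * ff M' := by
      have := mul_le_mul_of_nonneg_left hffM' hκ.le
      linarith
    have h5 : 0 < M ^ (ε / 2) := by positivity
    have h6 : |(q : ℝ) - s₀ * φ 0 (A + m + n)| ≤ |(q : ℝ) - φ 0 (A + m + n)| := by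
      have hq0 : (0 : ℝ) ≤ q := Nat.cast_nonneg q
      rcases hs₀ with rfl | rfl
      · rw [one_mul]
      · have h7 : 0 ≤ (q : ℝ) - φ 0 (A + m + n) := by linarith
        rw [abs_of_nonneg h7, abs_le]
        constructor <;> linarith
    push_cast
    rw [← add_assoc]
    calc κ / 64 * ff M ≤ κ * ff M' := h4
      _ < _ := h3
      _ ≤ _ := h6

/-- **the theorem** -/
theorem universal (k : ℕ) (ε : ℝ) (hε : 0 < ε) :
    ∃ κ : ℝ, 0 < κ ∧ ∃ M₀ : ℝ, ∀ M : ℝ, M₀ ≤ M → ∀ (A s s' : ℝ) (φ : ℕ → ℝ → ℝ),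
      (s = 1 ∨ s = -1) → (s' = 1 ∨ s' = -1) →
      HyS k A (A + M) (M ^ (ε - (k + 1))) (M ^ (-ε)) s s' φ →
      ∃ n : ℕ, (n : ℝ) ≤ M ∧ ∀ q : ℕ, q.Prime → κ * ff M < |(q : ℝ) - φ 0 (A + n)| := by
  obtain ⟨κ, hκ, M₀, h⟩ := universal_small k (min ε (1 / 2)) (lt_min hε (by norm_num)) (min_le_right _ _)
  refine ⟨κ, hκ, max M₀ 1, fun M hM A s s' φ hs hs' hy => ?_⟩
  have hM1 : 1 ≤ M := (le_max_right _ _).trans hM
  refine h M ((le_max_left _ _).trans hM) A s s' φ hs hs' ⟨hy.der, fun t ht => ?_, fun t ht => ?_, hy.mono⟩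
  · refine le_trans ?_ (hy.lo t ht)
    apply Real.rpow_le_rpow_of_exponent_le hM1
    have := min_le_left ε (1 / 2)
    linarith
  · refine (hy.hi t ht).trans ?_
    apply Real.rpow_le_rpow_of_exponent_le hM1
    have := min_le_left ε (1 / 2)
    linarith

end Pool.Agent.X29.SM
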