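import Pool.Agent.X29.SM.Wide

/-! Record gaps along every smooth curve: reduction of the general statement to short ranges of the derivative. -/

set_option autoImplicit false

namespace Pool.Agent.X29.SM

open Finset Filter
open Pool.Agent.TH668.Sm (HyS)
open Pool.Agent.W147.PS (ff ff_compare ev_pow)

/-- one third of an interval -/
lemma third {g g' : ℝ → ℝ} {a l lam s : ℝ} (hs : s = 1 ∨ s = -1) (hl : 0 < l) (hlam : 0 ≤ lam)
    (hg : ∀ t ∈ Set.Icc a (a + 3 * l), HasDerivAt g (g' t) t)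
    (h : ∀ t ∈ Set.Icc a (a + 3 * l), lam ≤ s * g' t) :
    ∃ a' s₂ : ℝ, (s₂ = 1 ∨ s₂ = -1) ∧ a ≤ a' ∧ a' + l ≤ a + 3 * l ∧
      ∀ t ∈ Set.Icc a' (a' + l), lam * l / 2 ≤ s₂ * g t := by
  have hgrow : ∀ u ∈ Set.Icc a (a + 3 * l), ∀ t ∈ Set.Icc a (a + 3 * l), u ≤ t →
      lam * (t - u) ≤ s * g t - s * g u := by
    intro u hu t ht hut
    rcases hut.eq_or_lt with rfl | hlt
    · simp
    have hc : ContinuousOn (fun x => s * g x) (Set.Icc u t) := fun x hx =>
      (((hg x ⟨hu.1.trans hx.1, hx.2.trans ht.2⟩).const_mul s).continuousAt).continuousWithinAt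
    obtain ⟨c, hc1, hc2⟩ := exists_hasDerivAt_eq_slope (fun x => s * g x) (fun x => s * g' x) hlt hc
      (fun x hx => (hg x ⟨hu.1.trans hx.1.le, hx.2.le.trans ht.2⟩).const_mul s)
    have h1 := h c ⟨hu.1.trans hc1.1.le, hc1.2.le.trans ht.2⟩
    rw [hc2, le_div_iff₀ (by linarith)] at h1
    exact h1
  by_cases hm : 0 ≤ s * g (a + 3 * l / 2)
  · refine ⟨a + 2 * l, s, hs, by linarith, by linarith, fun t ht => ?_⟩
    have h1 := hgrow (a + 3 * l / 2) ⟨by linarith, by linarith⟩ t ⟨by linarith [ht.1], by linarith [ht.2]⟩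
      (by linarith [ht.1])
    have h2 := mul_le_mul_of_nonneg_left (show l / 2 ≤ t - (a + 3 * l / 2) by linarith [ht.1]) hlam
    linarith
  · rw [not_le] at hm
    refine ⟨a, -s, ?_, le_rfl, by linarith, fun t ht => ?_⟩
    · rcases hs with rfl | rfl
      · right; rfl
      · left; norm_num
    have h1 := hgrow t ⟨ht.1, by linarith [ht.2]⟩ (a + 3 * l / 2) ⟨by linarith, by linarith⟩
      (by linarith [ht.2])
    have h2 := mul_le_mul_of_nonneg_left (show l / 2 ≤ (a + 3 * l / 2) - t by linarith [ht.2]) hlam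
    linarith

/-- a subinterval on which the function is large -/
lemma large (m : ℕ) : ∀ (A M lam s : ℝ) (φ : ℕ → ℝ → ℝ), (s = 1 ∨ s = -1) → 0 < M → 0 ≤ lam →
    (∀ j < m, ∀ t ∈ Set.Icc A (A + M), HasDerivAt (φ j) (φ (j + 1) t) t) →
    (∀ t ∈ Set.Icc A (A + M), lam ≤ s * φ m t) →
    ∃ a s₀ : ℝ, (s₀ = 1 ∨ s₀ = -1) ∧ A ≤ a ∧ a + M / 3 ^ m ≤ A + M ∧
      ∀ t ∈ Set.Icc a (a + M / 3 ^ m), lam * (M / (2 * 3 ^ m)) ^ m ≤ s₀ * φ 0 t := by
  induction m with
  | zero =>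
    intro A M lam s φ hs hM hlam _ h
    refine ⟨A, s, hs, le_rfl, by simp, fun t ht => ?_⟩
    simpa using h t (by simpa using ht)
  | succ m ih =>
    intro A M lam s φ hs hM hlam hd h
    have e3 : A + 3 * (M / 3) = A + M := by ring
    obtain ⟨a', s₂, hs₂, h1, h2, h3⟩ := third (g := φ m) (g' := φ (m + 1)) (a := A) (l := M / 3)
      (lam := lam) hs (by positivity) hlam
      (fun t ht => hd m (Nat.lt_succ_self m) t (by rwa [e3] at ht))
      (fun t ht => h t (by rwa [e3] at ht))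
    rw [e3] at h2
    obtain ⟨a, s₀, hs₀, h4, h5, h6⟩ := ih a' (M / 3) (lam * (M / 3) / 2) s₂ φ hs₂ (by positivity)
      (by positivity) (fun j hj t ht => hd j (by omega) t ⟨h1.trans ht.1, ht.2.trans h2⟩) h3
    have e4 : M / 3 ^ (m + 1) = M / 3 / 3 ^ m := by
      rw [pow_succ]
      field_simp
    refine ⟨a, s₀, hs₀, h1.trans h4, ?_, ?_⟩
    · rw [e4]; linarith
    · intro t ht
      rw [e4] at ht
      refine le_trans ?_ (h6 t ht)
      have e5 : M / 3 / (2 * 3 ^ m) = M / (2 * 3 ^ (m + 1)) := by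
        rw [pow_succ]
        field_simp
      rw [e5, pow_succ]
      have e6 : M / (2 * 3 ^ (m + 1)) ≤ M / 3 / 2 := by
        rw [div_div]
        apply div_le_div_of_nonneg_left hM.le (by norm_num)
        have : (1 : ℝ) ≤ 3 ^ m := one_le_pow₀ (by norm_num)
        rw [pow_succ]
        linarith
      calc lam * ((M / (2 * 3 ^ (m + 1))) ^ m * (M / (2 * 3 ^ (m + 1)))) ≤
          lam * ((M / (2 * 3 ^ (m + 1))) ^ m * (M / 3 / 2)) := by gcongr
        _ = _ := by ring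

/-- a step with a small quotient -/
lemma step (a : ℕ → ℝ) (R : ℝ) (J : ℕ) (hJ : 1 ≤ J) (hR : 0 < R) (h : a J ≤ R ^ J * a 0) :
    ∃ j < J, a (j + 1) ≤ R * a j := by
  by_contra hcon
  push Not at hcon
  have key : ∀ j, 1 ≤ j → j ≤ J → R ^ j * a 0 < a j := by
    intro j
    induction j with
    | zero => intro h1; omega
    | succ j ih =>
      intro _ h2
      rcases Nat.eq_zero_or_pos j with rfl | hj
      · simpa using hcon 0 (by omega)
      · have h3 := ih hj (by omega)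
        have h4 := hcon j (by omega)
        calc R ^ (j + 1) * a 0 = R * (R ^ j * a 0) := by ring
          _ < R * a j := mul_lt_mul_of_pos_left h3 hR
          _ < a (j + 1) := h4
  exact absurd h (not_le.2 (key J hJ le_rfl))

/-- a subinterval on which a monotone function varies little -/
lemma slow {ψ ψ' : ℝ → ℝ} {a l μ R lo hi : ℝ} (J : ℕ) (hJ : 1 ≤ J) (hl : 0 < l) (hR : 0 < R)
    (hμ : μ = 1 ∨ μ = -1)
    (hd : ∀ t ∈ Set.Icc a (a + J * l), HasDerivAt ψ (ψ' t) t)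
    (hm : ∀ t ∈ Set.Icc a (a + J * l), 0 ≤ μ * ψ' t)
    (hlo : ∀ t ∈ Set.Icc a (a + J * l), lo ≤ ψ t) (hhi : ∀ t ∈ Set.Icc a (a + J * l), ψ t ≤ hi)
    (h : hi ≤ R ^ J * lo) :
    ∃ b v : ℝ, a ≤ b ∧ b + l ≤ a + J * l ∧ lo ≤ v ∧ v ≤ hi ∧ ∀ t ∈ Set.Icc b (b + l), v ≤ ψ t ∧ ψ t ≤ R * v := by
  have hJr : (1 : ℝ) ≤ J := by exact_mod_cast hJ
  have hJl : 0 ≤ (J : ℝ) * l := by positivity
  have hmono : ∀ u ∈ Set.Icc a (a + J * l), ∀ t ∈ Set.Icc a (a + J * l), u ≤ t → μ * ψ u ≤ μ * ψ t := by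
    intro u hu t ht hut
    rcases hut.eq_or_lt with rfl | hlt
    · exact le_rfl
    have hc : ContinuousOn (fun x => μ * ψ x) (Set.Icc u t) := fun x hx =>
      (((hd x ⟨hu.1.trans hx.1, hx.2.trans ht.2⟩).const_mul μ).continuousAt).continuousWithinAt
    obtain ⟨c, hc1, hc2⟩ := exists_hasDerivAt_eq_slope (fun x => μ * ψ x) (fun x => μ * ψ' x) hlt hc
      (fun x hx => (hd x ⟨hu.1.trans hx.1.le, hx.2.le.trans ht.2⟩).const_mul μ)
    have h1 := hm c ⟨hu.1.trans hc1.1.le, hc1.2.le.trans ht.2⟩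
    rw [hc2, le_div_iff₀ (by linarith)] at h1
    linarith
  have hpt : ∀ j : ℕ, j ≤ J → a + j * l ∈ Set.Icc a (a + J * l) := by
    intro j hj
    have h1 : (j : ℝ) ≤ J := by exact_mod_cast hj
    have h2 : (0 : ℝ) ≤ j := Nat.cast_nonneg j
    constructor
    · have := mul_nonneg h2 hl.le
      linarith
    · have := mul_le_mul_of_nonneg_right h1 hl.le
      linarith
  have hsub : ∀ j : ℕ, j < J → ∀ t ∈ Set.Icc (a + j * l) (a + j * l + l), t ∈ Set.Icc a (a + J * l) := by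
    intro j hj t ht
    have h1 := hpt j hj.le
    have h2 := hpt (j + 1) hj
    push_cast at h2
    exact ⟨h1.1.trans ht.1, by linarith [ht.2, h2.2]⟩
  rcases hμ with rfl | rfl
  · -- increasing
    obtain ⟨j, hj, hj2⟩ := step (fun j => ψ (a + j * l)) R J hJ hR (by
      have h1 := hhi _ (hpt J le_rfl)
      have h2 := hlo _ (hpt 0 (by omega))
      calc ψ (a + J * l) ≤ hi := h1
        _ ≤ R ^ J * lo := h
        _ ≤ R ^ J * ψ (a + (0 : ℕ) * l) := mul_le_mul_of_nonneg_left h2 (by positivity))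
    have h0 := hpt j hj.le
    have h1 := hpt (j + 1) hj
    refine ⟨a + j * l, ψ (a + j * l), h0.1, ?_, hlo _ h0, hhi _ h0, fun t ht => ?_⟩
    · have := h1.2
      push_cast at this
      linarith
    · have h2 := hmono _ h0 t (hsub j hj t ht) ht.1
      have h3 := hmono t (hsub j hj t ht) _ h1 (by push_cast; linarith [ht.2])
      push_cast at h3 hj2
      constructor
      · linarith
      · linarith
  · -- decreasing
    obtain ⟨i, hi', hi2⟩ := step (fun j => ψ (a + (J - j : ℕ) * l)) R J hJ hR (by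
      have h1 := hhi _ (hpt 0 (by omega))
      have h2 := hlo _ (hpt J le_rfl)
      simp only [Nat.sub_self, Nat.sub_zero]
      calc ψ (a + (0 : ℕ) * l) ≤ hi := h1
        _ ≤ R ^ J * lo := h
        _ ≤ R ^ J * ψ (a + J * l) := mul_le_mul_of_nonneg_left h2 (by positivity))
    obtain ⟨j, hj⟩ : ∃ j, j = J - (i + 1) := ⟨_, rfl⟩
    have hjJ : j < J := by omega
    have hj1 : J - i = j + 1 := by omega
    have e1 : ψ (a + (j : ℝ) * l) ≤ R * ψ (a + ((j + 1 : ℕ) : ℝ) * l) := by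
      rw [← hj1, hj]
      exact hi2
    have h0 := hpt j hjJ.le
    have h1 := hpt (j + 1) hjJ
    refine ⟨a + j * l, ψ (a + ((j + 1 : ℕ) : ℝ) * l), h0.1, ?_, hlo _ h1, hhi _ h1, fun t ht => ?_⟩
    · have := h1.2
      push_cast at this
      linarith
    · have h2 := hmono _ h0 t (hsub j hjJ t ht) ht.1
      have h3 := hmono t (hsub j hjJ t ht) _ h1 (by push_cast; linarith [ht.2])
      constructor
      · linarith
      · linarith

/-- finitely many parameters -/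
lemma fin_unif (P : ℕ → ℝ → ℝ → Prop) (hmon : ∀ i κ κ' M, 0 < κ' → κ' ≤ κ → P i κ M → P i κ' M) (N : ℕ)
    (h : ∀ i < N, ∃ κ : ℝ, 0 < κ ∧ ∃ M₀ : ℝ, ∀ M : ℝ, M₀ ≤ M → P i κ M) :
    ∃ κ : ℝ, 0 < κ ∧ ∃ M₀ : ℝ, ∀ M : ℝ, M₀ ≤ M → ∀ i < N, P i κ M := by
  induction N with
  | zero => exact ⟨1, one_pos, 0, fun M _ i hi => absurd hi (Nat.not_lt_zero i)⟩
  | succ N ih =>
    obtain ⟨κ1, hκ1, M1, h1⟩ := ih fun i hi => h i (by omega)
    obtain ⟨κ2, hκ2, M2, h2⟩ := h N (Nat.lt_succ_self N)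
    refine ⟨min κ1 κ2, lt_min hκ1 hκ2, max M1 M2, fun M hM i hi => ?_⟩
    rcases Nat.lt_succ_iff_lt_or_eq.1 hi with h3 | rfl
    · exact hmon i κ1 _ M (lt_min hκ1 hκ2) (min_le_left _ _) (h1 M ((le_max_left _ _).trans hM) i h3)
    · exact hmon i κ2 _ M (lt_min hκ1 hκ2) (min_le_right _ _) (h2 M ((le_max_right _ _).trans hM))

end Pool.Agent.X29.SM
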