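import Pool.Agent.TH668.Sm.Unif
import Pool.Agent.Y719.LP.Smooth

/-! The exponential sum bound with the mean over the shifts, for phases whose derivative of order `k + 1` is monotone
in either direction (after `Pool.Agent.TH668.Sm.Unif` and `Pool.Agent.Y719.LP.Exp`). -/

set_option autoImplicit false

namespace Pool.Agent.X29.SM

open Finset Filter
open Pool.Agent.TH915.PW
open Pool.Agent.TH668.Sm (HyS norm_sum_conj)
open Pool.Agent.Y719.LP (exp_bound_sign log_small)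
open Pool.Agent.H469R2.NK (e norm_e e_add conj_e Cq Cq_pos)
open Pool.Agent.W147.PS (ff ff_compare ev_pow)

/-- the bound when the absolute value of the derivative of order `k + 1` decreases -/
lemma exp_dec {k : ℕ} {A B lo hi s s' : ℝ} {φ : ℕ → ℝ → ℝ} (hs : s = 1 ∨ s = -1) (hss : s' = -s)
    (hlo : 0 < lo) (hhi : 0 ≤ hi) (θ : ℝ)
    (hθ : 0 < θ) (h : HyS k A B lo hi s s' φ) (u : ℝ) (N L H : ℕ) (hN : 1 ≤ N) (hL : L ≤ N)
    (hu : A ≤ u) (huL : u + L ≤ B) (hH : 1 ≤ H) (hHN : H ≤ N)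
    (hup : 2 * (θ * (hi * (H : ℝ) ^ k)) ≤ 1) :
    (‖∑ n ∈ range L, e (θ * φ 0 (u + n))‖ / N) ^ (2 ^ k) ≤
      Cq k * (1 / H + 2 / (θ * lo) / N * ((1 + Real.log H) / H) ^ k) := by
  have hy : Hy k A B lo hi (fun m t => s * φ m t) := by
    refine ⟨fun m hm t ht => (h.der m hm t ht).const_mul s, h.lo, h.hi, fun t ht => ?_⟩
    have := h.mono t ht
    rw [hss] at this
    linarith
  exact exp_bound_sign s hs hlo hhi θ hθ hy u N L H hN hL hu huL hH hHN hup

/-- the bound in general -/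
lemma exp_gen {k : ℕ} {A lo hi s s' : ℝ} {φ : ℕ → ℝ → ℝ} (hs : s = 1 ∨ s = -1)
    (hs' : s' = 1 ∨ s' = -1) (hlo : 0 < lo) (hhi : 0 ≤ hi) (θ : ℝ)
    (hθ : 0 < θ) (L H : ℕ) (h : HyS k A (A + L + 1) lo hi s s' φ) (hN : 1 ≤ L)
    (hH : 1 ≤ H) (hHN : H ≤ L) (hup : 2 * (θ * (hi * (H : ℝ) ^ k)) ≤ 1) :
    (‖∑ n ∈ range L, e (θ * φ 0 (A + 1 + n))‖ / L) ^ (2 ^ k) ≤
      Cq k * (1 / H + 2 / (θ * lo) / L * ((1 + Real.log H) / H) ^ k) := by
  have hL0 : (0 : ℝ) ≤ L := Nat.cast_nonneg L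
  by_cases hss : s' = -s
  · exact exp_dec hs hss hlo hhi θ hθ h (A + 1) L L H hN le_rfl (by linarith) (by linarith) hH hHN hup
  · have hs2 : s' = s := by
      rcases hs with rfl | rfl <;> rcases hs' with rfl | rfl
      · rfl
      · exact absurd rfl hss
      · exfalso
        exact hss (by norm_num)
      · rfl
    -- time reversal
    set c : ℝ := 2 * A + L + 1 with hc
    have hpow : ∀ m : ℕ, ((-1 : ℝ) ^ m = 1 ∨ (-1 : ℝ) ^ m = -1) := fun m => neg_one_pow_eq_or ℝ m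
    have hy : HyS k (A + 1) (A + L + 1) lo hi ((-1) ^ (k + 1) * s) (-((-1) ^ (k + 1) * s))
        (fun m t => (-1) ^ m * φ m (c - t)) := by
      have hsq : ∀ m : ℕ, (-1 : ℝ) ^ m * (-1) ^ m = 1 := fun m => by
        rw [← mul_pow]; norm_num
      refine ⟨?_, ?_, ?_, ?_⟩
      · intro m hm t ht
        have h1 : c - t ∈ Set.Icc A (A + L + 1) := by
          rw [hc]
          constructor <;> linarith [ht.1, ht.2]
        have h2 := (h.der m hm _ h1).comp_const_sub c t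
        have h3 := h2.const_mul ((-1 : ℝ) ^ m)
        have e1 : (-1 : ℝ) ^ (m + 1) * φ (m + 1) (c - t) = (-1) ^ m * -φ (m + 1) (c - t) := by ring
        rw [e1]
        exact h3
      · intro t ht
        have h1 : c - t ∈ Set.Icc A (A + L + 1) := by
          rw [hc]
          constructor <;> linarith [ht.1, ht.2]
        have := h.lo _ h1
        calc lo ≤ s * φ (k + 1) (c - t) := this
          _ = ((-1) ^ (k + 1) * (-1) ^ (k + 1)) * (s * φ (k + 1) (c - t)) := by rw [hsq, one_mul]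
          _ = _ := by ring
      · intro t ht
        have h1 : c - t ∈ Set.Icc A (A + L + 1) := by
          rw [hc]
          constructor <;> linarith [ht.1, ht.2]
        have := h.hi _ h1
        calc _ = ((-1) ^ (k + 1) * (-1) ^ (k + 1)) * (s * φ (k + 1) (c - t)) := by ring
          _ = s * φ (k + 1) (c - t) := by rw [hsq, one_mul]
          _ ≤ hi := this
      · intro t ht
        have h1 : c - t ∈ Set.Icc A (A + L + 1) := by
          rw [hc]
          constructor <;> linarith [ht.1, ht.2]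
        have := h.mono _ h1
        rw [hs2] at this
        calc (0 : ℝ) ≤ s * φ (k + 2) (c - t) := this
          _ = ((-1) ^ (k + 1) * (-1) ^ (k + 1)) * (s * φ (k + 2) (c - t)) := by rw [hsq, one_mul]
          _ = _ := by ring
    have hs3 : (-1 : ℝ) ^ (k + 1) * s = 1 ∨ (-1 : ℝ) ^ (k + 1) * s = -1 := by
      rcases hpow (k + 1) with h1 | h1 <;> rcases hs with rfl | rfl <;> rw [h1] <;> norm_num
    have h5 := exp_dec hs3 rfl hlo hhi θ hθ hy (A + 1) L L H hN le_rfl le_rfl (by linarith) hH hHN hup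
    have e2 : ∑ n ∈ range L, e (θ * φ 0 (A + 1 + n)) =
        ∑ n ∈ range L, e (θ * ((fun m t => (-1 : ℝ) ^ m * φ m (c - t)) 0 (A + 1 + n))) := by
      rw [← sum_range_reflect]
      refine sum_congr rfl fun n hn => ?_
      rw [mem_range] at hn
      have e3 : ((L - 1 - n : ℕ) : ℝ) = L - 1 - n := by
        rw [Nat.cast_sub (by omega), Nat.cast_sub (by omega)]
        push_cast
        ring
      simp only [pow_zero, one_mul]
      congr 3
      rw [e3, hc]
      ring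
    rw [e2]
    exact h5

set_option maxHeartbeats 4000000 in
/-- the main step, with the exponent `h` of the shifts -/
theorem wide_one (k : ℕ) (h b1 b2 g : ℝ) (h0 : 0 < h) (h1 : h < 1)
    (hb1 : b1 - 1 < k * h) (hb2 : k * h < b2) (hg : 0 < g) :
    ∃ κ : ℝ, 0 < κ ∧ ∃ M₀ : ℝ, ∀ M : ℝ, M₀ ≤ M → ∀ (A s s' : ℝ) (φ : ℕ → ℝ → ℝ),
      (s = 1 ∨ s = -1) → (s' = 1 ∨ s' = -1) →
      HyS k A (A + M) (M ^ (-b1)) (M ^ (-b2)) s s' φ →
      (∀ t ∈ Set.Icc A (A + M), M ^ g ≤ φ 0 t) →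
      ∃ n : ℕ, (n : ℝ) ≤ M ∧ ∀ q : ℕ, q.Prime → κ * ff M < |(q : ℝ) - φ 0 (A + n)| := by
  have hk0 : (0 : ℝ) ≤ k := Nat.cast_nonneg k
  have hw0 : 0 ≤ k * h := mul_nonneg hk0 h0.le
  have hb20 : 0 < b2 := by linarith
  obtain ⟨g1, hg1⟩ : ∃ g1 : ℝ, g1 = k * h - (b1 - 1) := ⟨_, rfl⟩
  obtain ⟨g2, hg2⟩ : ∃ g2 : ℝ, g2 = b2 - k * h := ⟨_, rfl⟩
  have hg10 : 0 < g1 := by linarith
  have hg20 : 0 < g2 := by linarith
  obtain ⟨σ, hσ⟩ : ∃ σ : ℝ, σ = min h (g1 / 2) := ⟨_, rfl⟩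
  have hσ0 : 0 < σ := by rw [hσ]; exact lt_min h0 (by linarith)
  have hσh : σ ≤ h := by rw [hσ]; exact min_le_left _ _
  have hσg : σ ≤ g1 / 2 := by rw [hσ]; exact min_le_right _ _
  obtain ⟨δ', hδ'⟩ : ∃ δ' : ℝ, δ' = σ / 2 ^ k := ⟨_, rfl⟩
  have hδ'0 : 0 < δ' := by rw [hδ']; positivity
  have h2k : (1 : ℝ) ≤ 2 ^ k := one_le_pow₀ (by norm_num)
  have hδ'σ : δ' ≤ σ := by rw [hδ']; exact div_le_self hσ0.le h2k
  obtain ⟨η, hη⟩ : ∃ η : ℝ, η = min (min (δ' / 12) (g1 / 4)) (min (g2 / 8) g) := ⟨_, rfl⟩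
  have hη0 : 0 < η := by
    rw [hη]
    exact lt_min (lt_min (by linarith) (by linarith)) (lt_min (by linarith) hg)
  have hη1 : η ≤ δ' / 12 := by rw [hη]; exact (min_le_left _ _).trans (min_le_left _ _)
  have hη2 : η ≤ g1 / 4 := by rw [hη]; exact (min_le_left _ _).trans (min_le_right _ _)
  have hη3 : η ≤ g2 / 8 := by rw [hη]; exact (min_le_right _ _).trans (min_le_left _ _)
  have hη4 : η ≤ g := by rw [hη]; exact (min_le_right _ _).trans (min_le_right _ _)
  obtain ⟨τ, hτ⟩ : ∃ τ : ℝ, τ = g1 / (4 * (k + 1)) := ⟨_, rfl⟩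
  have hτ0 : 0 < τ := by rw [hτ]; positivity
  have hkτ : k * τ ≤ g1 / 4 := by
    have e1 : τ * (4 * (k + 1)) = g1 := by rw [hτ]; field_simp
    have e2 : τ * (4 * (k + 1)) = 4 * (k * τ) + 4 * τ := by ring
    linarith
  obtain ⟨κ, hκ, hcrit⟩ := crit_scaled η hη0 (by linarith)
  have hCq := Cq_pos k
  obtain ⟨C₂, hC₂⟩ : ∃ C₂ : ℝ, C₂ = 4 * 2 ^ k := ⟨_, rfl⟩
  have hC₂0 : 0 < C₂ := by rw [hC₂]; positivity
  obtain ⟨C₁, hC₁⟩ : ∃ C₁ : ℝ, C₁ = (Cq k * (2 + C₂)) ^ ((1 : ℝ) / 2 ^ k) := ⟨_, rfl⟩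
  have hC₁0 : 0 < C₁ := by rw [hC₁]; positivity
  refine ⟨κ, hκ, ?_⟩
  apply eventually_atTop.mp
  filter_upwards [hcrit, eventually_ge_atTop (4 : ℝ),
    ev_pow (-δ') (-(4 * η)) C₁ (by linarith),
    ev_pow (4 * η + k * h - b2) 0 2 (by linarith),
    (tendsto_rpow_atTop h0).eventually_ge_atTop 2,
    ev_pow h 1 4 (by linarith), log_small τ hτ0]
    with M hcr hM4 hp1 hp2 hp4 hp6 hp7
  have hM0 : 0 < M := lt_of_lt_of_le (by norm_num) hM4
  have hM1 : 1 ≤ M := le_trans (by norm_num) hM4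
  rw [Real.rpow_one] at hp6
  intro A s s' φ hs hs' hy hpos
  set L : ℕ := ⌊M⌋₊ - 1 with hL
  have hfl : (⌊M⌋₊ : ℝ) ≤ M := Nat.floor_le hM0.le
  have hfl2 : M < ⌊M⌋₊ + 1 := Nat.lt_floor_add_one _
  have hfl1 : 1 ≤ ⌊M⌋₊ := Nat.le_floor (by simpa using hM1)
  have hLr : (L : ℝ) = ⌊M⌋₊ - 1 := by
    rw [hL, Nat.cast_sub hfl1]
    norm_num
  have hLM : (L : ℝ) + 1 ≤ M := by rw [hLr]; linarith
  have hML : M / 2 ≤ L := by rw [hLr]; linarith
  have hLpos : 0 < L := by
    have : (0 : ℝ) < L := by linarith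
    exact_mod_cast this
  have hL0 : (0 : ℝ) < L := by exact_mod_cast hLpos
  set H : ℕ := ⌊M ^ h⌋₊ with hH
  have hHM : (H : ℝ) ≤ M ^ h := Nat.floor_le (by positivity)
  have hMH : M ^ h / 2 ≤ H := by
    have := Nat.lt_floor_add_one (M ^ h)
    linarith
  have hH0 : (0 : ℝ) < H := by linarith
  have hH1 : 1 ≤ H := by exact_mod_cast hH0
  have hH1r : (1 : ℝ) ≤ H := by exact_mod_cast hH1
  have hHL : H ≤ L := by
    have : (H : ℝ) ≤ L := by linarith
    exact_mod_cast this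
  have hy' : HyS k A (A + L + 1) (M ^ (-b1)) (M ^ (-b2)) s s' φ := by
    have hsub : ∀ t ∈ Set.Icc A (A + L + 1), t ∈ Set.Icc A (A + M) := fun t ht =>
      ⟨ht.1, ht.2.trans (by linarith)⟩
    exact ⟨fun m hm t ht => hy.der m hm t (hsub t ht), fun t ht => hy.lo t (hsub t ht),
      fun t ht => hy.hi t (hsub t ht), fun t ht => hy.mono t (hsub t ht)⟩
  have hlo0 : 0 < M ^ (-b1) := by positivity
  obtain ⟨i, hi, hi2⟩ := hcr ℕ (range L) (fun n => φ 0 (A + 1 + n))
    (by rw [Finset.nonempty_range_iff]; omega) (by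
      intro n hn
      rw [mem_range] at hn
      have hn0 : (0 : ℝ) ≤ n := Nat.cast_nonneg n
      have hn1 : (n : ℝ) ≤ L := by exact_mod_cast hn.le
      have h1 := hpos (A + 1 + n) ⟨by linarith, by linarith⟩
      refine le_trans ?_ h1
      exact Real.rpow_le_rpow_of_exponent_le hM1 hη4) (by
      intro q j hq hqX hj hjX
      have hq0 : (0 : ℝ) < q := by exact_mod_cast hq
      have hj1 : (1 : ℝ) ≤ j := by exact_mod_cast hj
      have hq1 : (1 : ℝ) ≤ q := by exact_mod_cast hq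
      set θ : ℝ := (j : ℝ) / q with hθ
      have hθ0 : 0 < θ := by positivity
      have hθup : θ ≤ M ^ (4 * η) := (div_le_self (by linarith) hq1).trans hjX
      have hθlow : 1 / θ ≤ M ^ η := by
        rw [hθ, one_div_div]
        exact (div_le_self hq0.le hj1).trans hqX
      have hHk : (H : ℝ) ^ k ≤ M ^ (k * h) := by
        calc (H : ℝ) ^ k ≤ (M ^ h) ^ k := pow_le_pow_left₀ (Nat.cast_nonneg _) hHM k
          _ = M ^ (k * h) := by rw [← Real.rpow_natCast, ← Real.rpow_mul hM0.le, mul_comm]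
      have hcond : 2 * (θ * (M ^ (-b2) * (H : ℝ) ^ k)) ≤ 1 := by
        calc 2 * (θ * (M ^ (-b2) * (H : ℝ) ^ k)) ≤
            2 * (M ^ (4 * η) * (M ^ (-b2) * M ^ (k * h))) := by gcongr
          _ = 2 * (M ^ (4 * η) * M ^ (k * h) * M ^ (-b2)) := by ring
          _ = 2 * M ^ (4 * η + k * h - b2) := by
              rw [sub_eq_add_neg, Real.rpow_add hM0, Real.rpow_add hM0]
          _ ≤ 1 := by
              rw [Real.rpow_zero] at hp2
              exact hp2
      have hexp := exp_gen hs hs' hlo0 (by positivity) θ hθ0 L H hy' hLpos hH1 hHL hcond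
      have hb : Cq k * (1 / H + 2 / (θ * M ^ (-b1)) / L * ((1 + Real.log H) / H) ^ k) ≤
          (Cq k * (2 + C₂)) * M ^ (-σ) := by
        have e1 : 1 / (H : ℝ) ≤ 2 * M ^ (-σ) := by
          have e0 : M ^ (-h) ≤ M ^ (-σ) := Real.rpow_le_rpow_of_exponent_le hM1 (by linarith)
          have e2 : 1 / (H : ℝ) ≤ 2 * M ^ (-h) := by
            rw [Real.rpow_neg hM0.le, div_le_iff₀ (by linarith : (0 : ℝ) < H)]
            have h5 : (0 : ℝ) < M ^ h := by positivity
            calc (1 : ℝ) = 2 * (M ^ h)⁻¹ * (M ^ h / 2) := by field_simp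
              _ ≤ _ := by gcongr
          linarith
        have e2 : 2 / (θ * M ^ (-b1)) / L * ((1 + Real.log H) / H) ^ k ≤
            C₂ * M ^ (-σ) := by
          have e3 : 2 / (θ * M ^ (-b1)) / L * ((1 + Real.log H) / H) ^ k =
              2 * (1 / θ) * M ^ b1 * (1 / L) * ((1 + Real.log H) / H) ^ k := by
            rw [Real.rpow_neg hM0.le]
            field_simp
          rw [e3]
          have e5 : 1 / (L : ℝ) ≤ 2 * M ^ (-1 : ℝ) := by
            rw [Real.rpow_neg_one, div_le_iff₀ hL0]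
            calc (1 : ℝ) = 2 * M⁻¹ * (M / 2) := by field_simp
              _ ≤ _ := by gcongr
          have e6 : (1 + Real.log H) / H ≤ 2 * M ^ (τ - h) := by
            have f1 : 1 + Real.log H ≤ M ^ τ := by
              refine le_trans ?_ hp7
              have := Real.log_le_log (by linarith) (show (H : ℝ) ≤ M by linarith)
              linarith
            have f0 : (0 : ℝ) < M ^ h := by positivity
            rw [div_le_iff₀ (by linarith : (0 : ℝ) < H), sub_eq_add_neg, Real.rpow_add hM0,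
              Real.rpow_neg hM0.le]
            calc 1 + Real.log H ≤ M ^ τ := f1
              _ = 2 * (M ^ τ * (M ^ h)⁻¹) * (M ^ h / 2) := by field_simp
              _ ≤ _ := by gcongr
          have e60 : 0 ≤ (1 + Real.log H) / H := by
            have := Real.log_nonneg hH1r
            positivity
          have e7 : ((1 + Real.log H) / H) ^ k ≤ 2 ^ k * M ^ (k * (τ - h)) := by
            calc ((1 + Real.log H) / H) ^ k ≤ (2 * M ^ (τ - h)) ^ k :=
                  pow_le_pow_left₀ e60 e6 k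
              _ = 2 ^ k * M ^ (k * (τ - h)) := by
                  rw [mul_pow, ← Real.rpow_natCast (M ^ (τ - h)), ← Real.rpow_mul hM0.le,
                    mul_comm (τ - h)]
          have e70 : 0 ≤ ((1 + Real.log H) / H) ^ k := pow_nonneg e60 k
          calc 2 * (1 / θ) * M ^ b1 * (1 / L) * ((1 + Real.log H) / H) ^ k ≤
              2 * M ^ η * M ^ b1 * (2 * M ^ (-1 : ℝ)) * (2 ^ k * M ^ (k * (τ - h))) := by
                gcongr
            _ = C₂ * (M ^ η * M ^ b1 * M ^ (-1 : ℝ) * M ^ (k * (τ - h))) := by rw [hC₂]; ring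
            _ = C₂ * M ^ (η + b1 + -1 + k * (τ - h)) := by
                rw [Real.rpow_add hM0, Real.rpow_add hM0, Real.rpow_add hM0]
            _ ≤ C₂ * M ^ (-σ) := by
                apply mul_le_mul_of_nonneg_left _ hC₂0.le
                apply Real.rpow_le_rpow_of_exponent_le hM1
                have e8 : (k : ℝ) * (τ - h) = k * τ - k * h := by ring
                rw [e8]
                linarith
        calc Cq k * (1 / H + 2 / (θ * M ^ (-b1)) / L * ((1 + Real.log H) / H) ^ k) ≤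
            Cq k * (2 * M ^ (-σ) + C₂ * M ^ (-σ)) := by gcongr
          _ = _ := by ring
      have hroot := root_le _ _ k (by positivity) (hexp.trans hb)
      have hr2 : ((Cq k * (2 + C₂)) * M ^ (-σ)) ^ ((1 : ℝ) / 2 ^ k) = C₁ * M ^ (-δ') := by
        rw [Real.mul_rpow (by positivity) (by positivity), ← Real.rpow_mul hM0.le, hC₁, hδ']
        congr 2
        ring
      rw [hr2, div_le_iff₀ hL0] at hroot
      have hcard : ((range L).card : ℝ) = L := by rw [card_range]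
      rw [hcard]
      refine hroot.trans ?_
      rw [mul_comm (L : ℝ)]
      exact mul_le_mul_of_nonneg_right hp1 hL0.le)
  rw [mem_range] at hi
  have hi1 : (i : ℝ) + 1 ≤ L := by exact_mod_cast hi
  refine ⟨1 + i, ?_, ?_⟩
  · push_cast
    linarith
  · intro q hq
    have := hi2 q hq
    push_cast
    rw [← add_assoc]
    exact this

/-- the choice of `h` -/
theorem wide_two (k : ℕ) (b1 b2 g : ℝ) (hb2 : 0 < b2)
    (hb1 : b1 < k + 1) (hb : b1 < b2 + 1) (hg : 0 < g) :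
    ∃ κ : ℝ, 0 < κ ∧ ∃ M₀ : ℝ, ∀ M : ℝ, M₀ ≤ M → ∀ (A s s' : ℝ) (φ : ℕ → ℝ → ℝ),
      (s = 1 ∨ s = -1) → (s' = 1 ∨ s' = -1) →
      HyS k A (A + M) (M ^ (-b1)) (M ^ (-b2)) s s' φ →
      (∀ t ∈ Set.Icc A (A + M), M ^ g ≤ φ 0 t) →
      ∃ n : ℕ, (n : ℝ) ≤ M ∧ ∀ q : ℕ, q.Prime → κ * ff M < |(q : ℝ) - φ 0 (A + n)| := by
  obtain ⟨h, h0, h1, h2, h3⟩ : ∃ h : ℝ, 0 < h ∧ h < 1 ∧ b1 - 1 < k * h ∧ k * h < b2 := by
    rcases Nat.eq_zero_or_pos k with rfl | hk
    · refine ⟨1 / 2, by norm_num, by norm_num, ?_, ?_⟩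
      · push_cast at hb1 ⊢
        linarith
      · push_cast
        linarith
    · have hk' : (1 : ℝ) ≤ k := by exact_mod_cast hk
      obtain ⟨u, hu⟩ : ∃ u : ℝ, u = max (b1 - 1) 0 := ⟨_, rfl⟩
      obtain ⟨v, hv⟩ : ∃ v : ℝ, v = min b2 k := ⟨_, rfl⟩
      have hu1 : b1 - 1 ≤ u := by rw [hu]; exact le_max_left _ _
      have hu2 : 0 ≤ u := by rw [hu]; exact le_max_right _ _
      have hv1 : v ≤ b2 := by rw [hv]; exact min_le_left _ _
      have hv2 : v ≤ k := by rw [hv]; exact min_le_right _ _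
      have huv : u < v := by
        rw [hu, hv]
        exact lt_min (max_lt (by linarith) hb2) (max_lt (by linarith) (by linarith))
      have hkne : (k : ℝ) ≠ 0 := by linarith
      have e : k * ((u + v) / 2 / k) = (u + v) / 2 := by field_simp
      refine ⟨(u + v) / 2 / k, div_pos (by linarith) (by linarith), ?_, ?_, ?_⟩
      · rw [div_lt_one (by linarith)]
        linarith
      · rw [e]; linarith
      · rw [e]; linarith
  exact wide_one k h b1 b2 g h0 h1 h2 h3 hg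

end Pool.Agent.X29.SM
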